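import Mathlib
import Pool.Agent.Q143.NI.Main

/-!
# Norms with many points avoiding near-integer distances

For every `δ < 1/2` and every exponent `A` some norm on some `ℝ ^ d` admits more than `X ^ A` points
in a ball of radius `X` all of whose mutual distances are `δ`-far from the integers. The case `A = 1`
answers the question.
-/

set_option autoImplicit false

namespace Pool.Agent.Results.MP_af7c6a_co.EveryPower

open Filter Q143.NI

/-- For every `δ ∈ (0, 1/2)` and every `A` there are a dimension `d ≥ 1` and a norm `N` on `ℝ ^ d`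
(a seminorm that vanishes at `0` only) such that the sizes of the admissible families in a ball of
radius `X` are bounded for every `X` and their maximum `N(X, δ)` satisfies `N(X, δ) / X ^ A → ∞`. -/
theorem result : ∀ δ : ℝ, 0 < δ → δ < 1 / 2 → ∀ A : ℕ,
    ∃ (d : ℕ) (N : Seminorm ℝ (Fin d → ℝ)), 1 ≤ d ∧ (∀ x, N x = 0 → x = 0) ∧
      (∀ X : ℝ, BddAbove {n : ℕ | ∃ p : Fin n → Fin d → ℝ, Admissible N δ X p}) ∧
      Tendsto (fun X : ℝ => (maxPoints N δ X : ℝ) / X ^ A) atTop atTop := by
  intro δ h0 h1 A
  obtain ⟨k, hk, h⟩ := growth δ h0 h1 A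
  exact ⟨k * 2, planeNorm k, by omega, planeNorm_isNorm k,
    fun X => bddAbove _ (planeNorm_isNorm k) δ X h0, h⟩

end Pool.Agent.Results.MP_af7c6a_co.EveryPower
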